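import Pool.Agent.P8H78.EX.Alg2

/-!
# Package ALG of project EX
-/

set_option autoImplicit false

namespace Pool.Agent.P8H78.EX

open Finset Filter Topology
open Pool.Agent.P8H14.CF Pool.Agent.P8H14.EX
open Pool.Agent.P8H96.CF (chi_mul chi_one chi_two chi_abs chi_tri chi_jac sing_eq)

theorem cs_aux (s : Finset ℕ) (a b : ℕ → ℝ) (ha : ∀ d, 0 ≤ a d) :
    (∑ d ∈ s, a d * |b d|) ^ 2 ≤ (∑ d ∈ s, a d) * ∑ d ∈ s, a d * b d ^ 2 := by
  have h := sum_mul_sq_le_sq_mul_sq s (fun d => √(a d)) (fun d => √(a d) * |b d|)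
  have e1 : ∑ d ∈ s, √(a d) * (√(a d) * |b d|) = ∑ d ∈ s, a d * |b d| := by
    refine sum_congr rfl fun d _ => ?_
    rw [← mul_assoc, Real.mul_self_sqrt (ha d)]
  have e2 : ∑ d ∈ s, √(a d) ^ 2 = ∑ d ∈ s, a d := by
    refine sum_congr rfl fun d _ => ?_
    rw [Real.sq_sqrt (ha d)]
  have e3 : ∑ d ∈ s, (√(a d) * |b d|) ^ 2 = ∑ d ∈ s, a d * b d ^ 2 := by
    refine sum_congr rfl fun d _ => ?_
    rw [mul_pow, Real.sq_sqrt (ha d), sq_abs]
  rw [e1, e2, e3] at h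
  exact h

/-- the difference of the truncated singular series and the product -/
theorem diff_le {σ : ℤ} {z u N A Q : ℕ} (hA : A ∈ AS σ z u N) (hu : 3 ≤ u) :
    (sing Q A - VS σ z) ^ 2 ≤
      2 * (∑ d ∈ (P2 z).divisors.filter (fun d => ¬ d ≤ Q), |g d|) ^ 2 +
      2 * (VS (-1) z * ∑ d ∈ (P2 z).divisors, |g d| *
        (∑ m ∈ MS z Q d, g m * chi A m) ^ 2) := by
  classical
  have hA' := hA
  unfold AS at hA'
  rw [mem_filter, mem_Ioc] at hA'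
  obtain ⟨⟨hA1, -⟩, hodd, -⟩ := hA'
  have hA3 : 3 ≤ A := by omega
  have e1 : sing Q A = ∑ k ∈ Icc 1 Q, f A k := sing_eq hA3 hodd Q
  have e2 := decomp (F := f A) (by unfold f; rw [g_one, chi_one]; simp)
    (fun k hk => by unfold f; rw [g_not_sf hk, zero_mul]) (fun m n h => f_mul A h) z Q
  have e3 := sum_f hA
  have e4 : sing Q A - VS σ z = -∑ d ∈ (P2 z).divisors.filter (fun d => ¬ d ≤ Q), f A d +
      ∑ d ∈ (P2 z).divisors.filter (fun d => d ≤ Q), f A d * ∑ m ∈ MS z Q d, f A m := by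
    rw [e1, e2, ← e3, sum_filter, sum_filter, ← sum_neg_distrib, ← sum_sub_distrib,
      ← sum_add_distrib]
    refine sum_congr rfl fun d _ => ?_
    by_cases h : d ≤ Q
    · simp only [h, if_true, not_true, if_false]
      ring
    · simp only [h, if_false, not_false_eq_true, if_true]
      ring
  have hfle : ∀ k, |f A k| ≤ |g k| := by
    intro k
    unfold f
    rw [abs_mul]
    exact mul_le_of_le_one_right (abs_nonneg _) (chi_abs A k)
  have b1 : |∑ d ∈ (P2 z).divisors.filter (fun d => ¬ d ≤ Q), f A d| ≤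
      ∑ d ∈ (P2 z).divisors.filter (fun d => ¬ d ≤ Q), |g d| :=
    (abs_sum_le_sum_abs _ _).trans (sum_le_sum fun d _ => hfle d)
  have b2 : |∑ d ∈ (P2 z).divisors.filter (fun d => d ≤ Q), f A d * ∑ m ∈ MS z Q d, f A m| ≤
      ∑ d ∈ (P2 z).divisors, |g d| * |∑ m ∈ MS z Q d, f A m| := by
    refine (abs_sum_le_sum_abs _ _).trans ?_
    refine (sum_le_sum_of_subset_of_nonneg (filter_subset _ _) fun _ _ _ => abs_nonneg _).trans ?_
    refine sum_le_sum fun d _ => ?_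
    rw [abs_mul]
    exact mul_le_mul_of_nonneg_right (hfle d) (abs_nonneg _)
  have b3 : (∑ d ∈ (P2 z).divisors, |g d| * |∑ m ∈ MS z Q d, f A m|) ^ 2 ≤
      (∑ d ∈ (P2 z).divisors, |g d|) * ∑ d ∈ (P2 z).divisors, |g d| *
        (∑ m ∈ MS z Q d, f A m) ^ 2 := by
    exact cs_aux _ (fun d => |g d|) (fun d => ∑ m ∈ MS z Q d, f A m) fun d => abs_nonneg _
  rw [sum_g] at b3
  have b1' : (∑ d ∈ (P2 z).divisors.filter (fun d => ¬ d ≤ Q), f A d) ^ 2 ≤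
      (∑ d ∈ (P2 z).divisors.filter (fun d => ¬ d ≤ Q), |g d|) ^ 2 := by
    rw [← sq_abs]
    gcongr
  have b2' : (∑ d ∈ (P2 z).divisors.filter (fun d => d ≤ Q), f A d * ∑ m ∈ MS z Q d, f A m) ^ 2 ≤
      VS (-1) z * ∑ d ∈ (P2 z).divisors, |g d| * (∑ m ∈ MS z Q d, f A m) ^ 2 := by
    rw [← sq_abs]
    refine le_trans ?_ b3
    gcongr
  rw [e4]
  have hsq : ∀ x y : ℝ, (-x + y) ^ 2 ≤ 2 * x ^ 2 + 2 * y ^ 2 := fun x y => by
    nlinarith [sq_nonneg (x + y)]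
  refine (hsq _ _).trans ?_
  have : ∀ d, ∑ m ∈ MS z Q d, f A m = ∑ m ∈ MS z Q d, g m * chi A m := fun d => rfl
  simp only [this] at b2' ⊢
  linarith

theorem alg (h₁ : S_CNT) (h₂ : S_VAR) (h₃ : S_MER) : S_ALG := by
  classical
  -- the bound of the product
  obtain ⟨C1, hC1⟩ : ∃ C1 : ℝ, ∀ z : ℕ, |VS (-1) z / Real.log z| ≤ C1 := by
    obtain ⟨C1, hC1⟩ := h₃.1.abs.bddAbove_range
    exact ⟨C1, fun z => hC1 ⟨z, rfl⟩⟩
  have hC10 : 0 ≤ C1 := (abs_nonneg _).trans (hC1 0)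
  have hKR := KR_pos
  obtain ⟨C, hC⟩ : ∃ C : ℝ, C = 11 + 128 * C1 ^ 2 * (KR + 1) := ⟨_, rfl⟩
  have hC9 : 11 ≤ C := by
    rw [hC]
    have : 0 ≤ 128 * C1 ^ 2 * (KR + 1) := by positivity
    linarith
  refine ⟨C, by linarith, fun σ z u N Q hσ hz hu hN hQ hlog hbig => ?_⟩
  have hz0 : (0 : ℝ) < z := by exact_mod_cast (by omega : 0 < z)
  have hz1 : (1 : ℝ) ≤ z := by exact_mod_cast (by omega : 1 ≤ z)
  have hs0 : 0 < √(z : ℝ) := Real.sqrt_pos.2 hz0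
  have hQ0 : (0 : ℝ) < Q := by exact_mod_cast hQ
  -- `Q` is at least two
  have hQ2 : 2 ≤ Q := by
    by_contra hc
    have : Q = 1 := by omega
    rw [this, Nat.cast_one, Real.log_one] at hlog
    have : 0 < C * √(z : ℝ) := by positivity
    linarith
  -- the first error
  have hE1 : (∑ d ∈ (P2 z).divisors.filter (fun d => ¬ d ≤ Q), |g d|) ^ 2 ≤ 1 / √(z : ℝ) := by
    have h4 := tail_g (z := z) (Q := Q) (by omega) hQ
    have h5 : (Real.exp (4 * √(z : ℝ)) / √(Q : ℝ)) ^ 2 ≤ 1 / √(z : ℝ) := by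
      rw [div_pow, Real.sq_sqrt hQ0.le, ← Real.exp_nat_mul]
      have h6 : Real.exp (9 * √(z : ℝ)) ≤ Q := by
        rw [← Real.le_log_iff_exp_le hQ0]
        have : 9 * √(z : ℝ) ≤ C * √(z : ℝ) := by gcongr; linarith
        linarith
      rw [div_le_div_iff₀ hQ0 hs0, one_mul]
      refine le_trans ?_ h6
      have h7 : √(z : ℝ) ≤ Real.exp (√(z : ℝ)) := by
        have := Real.add_one_le_exp (√(z : ℝ))
        linarith
      calc Real.exp ((2 : ℕ) * (4 * √(z : ℝ))) * √(z : ℝ)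
          ≤ Real.exp ((2 : ℕ) * (4 * √(z : ℝ))) * Real.exp (√(z : ℝ)) := by gcongr
        _ = Real.exp (9 * √(z : ℝ)) := by
            rw [← Real.exp_add]
            congr 1
            push_cast
            ring
    refine le_trans ?_ h5
    have : 0 ≤ ∑ d ∈ (P2 z).divisors.filter (fun d => ¬ d ≤ Q), |g d| :=
      sum_nonneg fun _ _ => abs_nonneg _
    gcongr
  -- the number of the `A`
  have hKZ0 : (0 : ℝ) ≤ KZ z := Nat.cast_nonneg _
  have hPZ0 : (0 : ℝ) < PZ z := by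
    have : PZ z ≠ 0 := by
      have := P2_ne z
      rw [P2_eq] at this
      omega
    exact_mod_cast Nat.pos_of_ne_zero this
  have hcard : (KZ z : ℝ) * (Q : ℝ) ^ 4 * z ≤ (AS σ z u N).card := by
    have h4 := (abs_le.1 (h₁ σ z u N hσ hN)).1
    have h5 : (8 : ℝ) * PZ z * (Q : ℝ) ^ 4 * z ≤ (N : ℝ) - u := by
      rw [← Nat.cast_sub hN]
      exact_mod_cast hbig
    have h6 : 4 * ((Q : ℝ) ^ 4 * z) ≤ ((N : ℝ) - u) / (2 * PZ z) := by
      rw [le_div_iff₀ (by positivity)]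
      linarith
    have h7 : (1 : ℝ) ≤ (Q : ℝ) ^ 4 * z := by
      have : (1 : ℝ) ≤ (Q : ℝ) ^ 4 := one_le_pow₀ (by exact_mod_cast hQ)
      nlinarith
    have h8 : (KZ z : ℝ) * (4 * ((Q : ℝ) ^ 4 * z)) ≤ KZ z * (((N : ℝ) - u) / (2 * PZ z)) := by
      gcongr
    have h9 : (KZ z : ℝ) * ((N : ℝ) - u) / (2 * PZ z) = KZ z * (((N : ℝ) - u) / (2 * PZ z)) := by
      rw [mul_div_assoc]
    rw [h9] at h4
    nlinarith
  -- the mean squares
  have hSd : ∀ d, ∑ A ∈ AS σ z u N, (∑ m ∈ MS z Q d, g m * chi A m) ^ 2 ≤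
      (AS σ z u N).card * ((KR + 1) * ((z : ℝ) ^ (3 / 4 : ℝ))⁻¹) := by
    intro d
    have h4 := h₂ σ z u N hσ hN (MS z Q d) g (fun m hm => by
      obtain ⟨a1, a2, a3, -⟩ := mem_MS (by omega) hm
      exact ⟨a2, a1, a3⟩)
    have h5 := sum_sq (z := z) (Q := Q) (by omega) hQ2 (S := MS z Q d) (fun m hm => by
      obtain ⟨a1, -, -, a4, a5⟩ := mem_MS (by omega) hm
      exact ⟨a1, a4, a5⟩)
    have h6 : ∑ m ∈ MS z Q d, |g m| * m ≤ (Q : ℝ) ^ 2 := by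
      calc ∑ m ∈ MS z Q d, |g m| * m ≤ ∑ m ∈ MS z Q d, (Q : ℝ) := by
            refine sum_le_sum fun m hm => ?_
            obtain ⟨a1, -, -, a4, a5⟩ := mem_MS (by omega) hm
            have h7 : |g m| ≤ 1 := by
              refine g_abs.trans ?_
              have h8 : 1 ≤ m.totient := Nat.totient_pos.2 (by omega)
              have h9 : (1 : ℝ) ≤ m.totient := by exact_mod_cast h8
              rw [div_le_one (by linarith)]
              exact h9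
            calc |g m| * m ≤ 1 * m := by gcongr
              _ ≤ Q := by rw [one_mul]; exact_mod_cast a5
        _ = (MS z Q d).card * (Q : ℝ) := by rw [sum_const, nsmul_eq_mul]
        _ ≤ Q * Q := by
            gcongr
            have h8 : MS z Q d ⊆ Icc 1 Q := fun m hm => by
              obtain ⟨-, -, -, a4, a5⟩ := mem_MS (by omega) hm
              exact mem_Icc.2 ⟨by omega, a5⟩
            have := card_le_card h8
            rwa [Nat.card_Icc, Nat.add_sub_cancel] at this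
        _ = (Q : ℝ) ^ 2 := by ring
    have h6' : 0 ≤ ∑ m ∈ MS z Q d, |g m| * (m : ℝ) := sum_nonneg fun _ _ => by positivity
    have h7 : (KZ z : ℝ) * (∑ m ∈ MS z Q d, |g m| * m) ^ 2 ≤
        (AS σ z u N).card * ((z : ℝ) ^ (3 / 4 : ℝ))⁻¹ := by
      have h8 : (KZ z : ℝ) * (∑ m ∈ MS z Q d, |g m| * m) ^ 2 ≤ KZ z * (Q : ℝ) ^ 4 := by
        have : (∑ m ∈ MS z Q d, |g m| * (m : ℝ)) ^ 2 ≤ ((Q : ℝ) ^ 2) ^ 2 := by gcongr
        calc _ ≤ (KZ z : ℝ) * ((Q : ℝ) ^ 2) ^ 2 := by gcongr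
          _ = _ := by ring
      have h9 : (KZ z : ℝ) * (Q : ℝ) ^ 4 ≤ (AS σ z u N).card * (z : ℝ)⁻¹ := by
        rw [← div_eq_mul_inv, le_div_iff₀ hz0]
        exact hcard
      have h10 : (z : ℝ)⁻¹ ≤ ((z : ℝ) ^ (3 / 4 : ℝ))⁻¹ := by
        rw [inv_le_inv₀ hz0 (Real.rpow_pos_of_pos hz0 _)]
        calc (z : ℝ) ^ (3 / 4 : ℝ) ≤ (z : ℝ) ^ (1 : ℝ) :=
              Real.rpow_le_rpow_of_exponent_le hz1 (by norm_num)
          _ = z := Real.rpow_one _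
      refine h8.trans (h9.trans ?_)
      gcongr
    refine h4.trans ?_
    have h11 : ((AS σ z u N).card : ℝ) * ∑ m ∈ MS z Q d, g m ^ 2 ≤
        (AS σ z u N).card * (KR * ((z : ℝ) ^ (3 / 4 : ℝ))⁻¹) := by gcongr
    calc _ ≤ ((AS σ z u N).card : ℝ) * (KR * ((z : ℝ) ^ (3 / 4 : ℝ))⁻¹) +
          (AS σ z u N).card * ((z : ℝ) ^ (3 / 4 : ℝ))⁻¹ := add_le_add h11 h7
      _ = _ := by ring
  -- the product
  have hV : VS (-1) z ^ 2 ≤ C1 ^ 2 * (64 * (z : ℝ) ^ (1 / 4 : ℝ)) := by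
    have hlz : 0 < Real.log z := Real.log_pos (by exact_mod_cast (by omega : 1 < z))
    have h4 := hC1 z
    rw [abs_div, abs_of_pos hlz, div_le_iff₀ hlz] at h4
    have h5 : Real.log z ≤ 8 * (z : ℝ) ^ (1 / 8 : ℝ) := by
      have := Real.log_le_rpow_div hz0.le (by norm_num : (0 : ℝ) < 1 / 8)
      linarith
    have h6 : VS (-1) z ^ 2 ≤ (C1 * (8 * (z : ℝ) ^ (1 / 8 : ℝ))) ^ 2 := by
      rw [← sq_abs]
      have : |VS (-1) z| ≤ C1 * (8 * (z : ℝ) ^ (1 / 8 : ℝ)) := h4.trans (by gcongr)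
      gcongr
    refine h6.trans (le_of_eq ?_)
    have h7 : ((z : ℝ) ^ (1 / 8 : ℝ)) ^ 2 = (z : ℝ) ^ (1 / 4 : ℝ) := by
      rw [← Real.rpow_natCast, ← Real.rpow_mul hz0.le]
      norm_num
    rw [← h7]
    ring
  have hVn : 0 ≤ VS (-1) z := by
    rw [← sum_g]
    exact sum_nonneg fun _ _ => abs_nonneg _
  -- the second error
  have hE2 : ∑ A ∈ AS σ z u N, (VS (-1) z * ∑ d ∈ (P2 z).divisors, |g d| *
      (∑ m ∈ MS z Q d, g m * chi A m) ^ 2) ≤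
      (AS σ z u N).card * (64 * C1 ^ 2 * (KR + 1)) / √(z : ℝ) := by
    rw [← mul_sum, sum_comm]
    have h4 : ∑ d ∈ (P2 z).divisors, ∑ A ∈ AS σ z u N, |g d| *
        (∑ m ∈ MS z Q d, g m * chi A m) ^ 2 ≤ ∑ d ∈ (P2 z).divisors, |g d| *
        ((AS σ z u N).card * ((KR + 1) * ((z : ℝ) ^ (3 / 4 : ℝ))⁻¹)) := by
      refine sum_le_sum fun d _ => ?_
      rw [← mul_sum]
      exact mul_le_mul_of_nonneg_left (hSd d) (abs_nonneg _)
    rw [← sum_mul, sum_g] at h4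
    have h5 : (z : ℝ) ^ (1 / 4 : ℝ) * ((z : ℝ) ^ (3 / 4 : ℝ))⁻¹ = 1 / √(z : ℝ) := by
      have h6 : 1 / √(z : ℝ) = (z : ℝ) ^ (-(1 / 2) : ℝ) := by
        rw [Real.sqrt_eq_rpow, Real.rpow_neg hz0.le]
        exact one_div _
      rw [h6, ← Real.rpow_neg hz0.le, ← Real.rpow_add hz0]
      norm_num
    calc VS (-1) z * ∑ d ∈ (P2 z).divisors, ∑ A ∈ AS σ z u N, |g d| *
          (∑ m ∈ MS z Q d, g m * chi A m) ^ 2
        ≤ VS (-1) z * (VS (-1) z * ((AS σ z u N).card *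
          ((KR + 1) * ((z : ℝ) ^ (3 / 4 : ℝ))⁻¹))) := by gcongr
      _ = VS (-1) z ^ 2 * (((AS σ z u N).card : ℝ) * ((KR + 1) * ((z : ℝ) ^ (3 / 4 : ℝ))⁻¹)) := by
          ring
      _ ≤ (C1 ^ 2 * (64 * (z : ℝ) ^ (1 / 4 : ℝ))) * (((AS σ z u N).card : ℝ) *
          ((KR + 1) * ((z : ℝ) ^ (3 / 4 : ℝ))⁻¹)) := by gcongr
      _ = ((AS σ z u N).card : ℝ) * (64 * C1 ^ 2 * (KR + 1)) *
          ((z : ℝ) ^ (1 / 4 : ℝ) * ((z : ℝ) ^ (3 / 4 : ℝ))⁻¹) := by ring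
      _ = _ := by
          rw [h5]
          ring
  calc ∑ A ∈ AS σ z u N, (sing Q A - VS σ z) ^ 2
      ≤ ∑ A ∈ AS σ z u N, (2 * (∑ d ∈ (P2 z).divisors.filter (fun d => ¬ d ≤ Q), |g d|) ^ 2 +
        2 * (VS (-1) z * ∑ d ∈ (P2 z).divisors, |g d| *
        (∑ m ∈ MS z Q d, g m * chi A m) ^ 2)) := sum_le_sum fun A hA => diff_le hA hu
    _ = 2 * ((AS σ z u N).card * (∑ d ∈ (P2 z).divisors.filter (fun d => ¬ d ≤ Q), |g d|) ^ 2) +
        2 * ∑ A ∈ AS σ z u N, (VS (-1) z * ∑ d ∈ (P2 z).divisors, |g d| *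
        (∑ m ∈ MS z Q d, g m * chi A m) ^ 2) := by
        rw [sum_add_distrib, sum_const, nsmul_eq_mul, ← mul_sum]
        ring
    _ ≤ 2 * ((AS σ z u N).card * (1 / √(z : ℝ))) +
        2 * ((AS σ z u N).card * (64 * C1 ^ 2 * (KR + 1)) / √(z : ℝ)) := by
        gcongr
    _ = (2 + 128 * C1 ^ 2 * (KR + 1)) * (AS σ z u N).card / √(z : ℝ) := by ring
    _ ≤ C * (AS σ z u N).card / √(z : ℝ) := by
        gcongr
        rw [hC]
        linarith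

end Pool.Agent.P8H78.EX
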