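import Pool.Agent.P8H14.EX.Stm
import Mathlib.NumberTheory.Chebyshev

/-!
# Package LOW of project EX
-/

set_option autoImplicit false

namespace Pool.Agent.P8H78.EX

open Finset Filter Topology
open Pool.Agent.P8H14.EX

theorem op_card (z : ℕ) : (op z).card ≤ Nat.primeCounting z := by
  rw [Nat.primeCounting, Nat.primeCounting', Nat.count_eq_card_filter_range]
  refine card_le_card fun p hp => ?_
  unfold op at hp
  rw [mem_filter, mem_Icc] at hp
  rw [mem_filter, mem_range]
  exact ⟨by omega, hp.2⟩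

theorem pz_le (z : ℕ) : PZ z ≤ KZ z * 3 ^ (op z).card := by
  unfold PZ KZ
  rw [← prod_const, ← prod_mul_distrib]
  refine prod_le_prod' fun p hp => ?_
  unfold op at hp
  rw [mem_filter, mem_Icc] at hp
  obtain ⟨⟨h1, -⟩, h2⟩ := hp
  have h3 : p % 2 = 1 := Nat.odd_iff.1 (h2.odd_of_ne_two (by omega))
  omega

theorem low : S_LOW := by
  refine ⟨Real.log 3 * (2 * Real.log 4 + 2), by positivity, fun z hz => ?_⟩
  have hz1 : (1 : ℝ) < z := by exact_mod_cast (by omega : 1 < z)
  have hz0 : (0 : ℝ) < z := by linarith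
  have hl : 0 < Real.log z := Real.log_pos hz1
  have h1 : (PZ z : ℝ) ≤ KZ z * 3 ^ (op z).card := by exact_mod_cast pz_le z
  have h2 := Chebyshev.pi_le_log4_mul_div hz1
  rw [Nat.floor_natCast] at h2
  have h3 : (((op z).card : ℕ) : ℝ) ≤ (2 * Real.log 4 + 2) * z / Real.log z := by
    have h4 : (((op z).card : ℕ) : ℝ) ≤ (Nat.primeCounting z : ℝ) := by exact_mod_cast op_card z
    refine h4.trans (h2.trans ?_)
    rw [Real.log_sqrt hz0.le]
    have h5 : √(z : ℝ) ≤ 2 * z / Real.log z := by
      rw [le_div_iff₀ hl]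
      have h6 : Real.log z ≤ 2 * √(z : ℝ) := by
        have h7 : Real.log z = 2 * Real.log (√(z : ℝ)) := by
          rw [Real.log_sqrt hz0.le]
          ring
        have h8 := Real.log_le_sub_one_of_pos (Real.sqrt_pos.2 hz0)
        linarith
      have h9 : √(z : ℝ) * √(z : ℝ) = z := Real.mul_self_sqrt hz0.le
      have h10 := Real.sqrt_nonneg (z : ℝ)
      nlinarith
    have h11 : Real.log 4 * (z : ℝ) / (Real.log z / 2) = 2 * Real.log 4 * z / Real.log z := by
      field_simp
    rw [h11]
    have h12 : (2 * Real.log 4 + 2) * (z : ℝ) / Real.log z =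
        2 * Real.log 4 * z / Real.log z + 2 * z / Real.log z := by ring
    rw [h12]
    linarith
  have h13 : (3 : ℝ) ^ (op z).card ≤ Real.exp (Real.log 3 * (2 * Real.log 4 + 2) * z / Real.log z) := by
    rw [← Real.rpow_natCast, Real.rpow_def_of_pos (by norm_num)]
    apply Real.exp_le_exp.2
    have h14 : 0 < Real.log 3 := Real.log_pos (by norm_num)
    calc Real.log 3 * ((op z).card : ℝ) ≤ Real.log 3 * ((2 * Real.log 4 + 2) * z / Real.log z) := by
          gcongr
      _ = _ := by ring
  refine h1.trans ?_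
  gcongr

end Pool.Agent.P8H78.EX
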