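import Pool.Agent.P8H14.EX.Stm
import Pool.Agent.P8H96.CF.Eul

/-!
# Package ALG of project EX, first part: the algebraic decomposition
-/

set_option autoImplicit false

namespace Pool.Agent.P8H78.EX

open Finset Filter Topology
open Pool.Agent.P8H14.CF Pool.Agent.P8H14.EX
open Pool.Agent.P8H96.CF (chi_mul chi_one chi_two chi_abs chi_tri chi_jac sing_eq)

/-- all primes up to `z` -/
def ap (z : ℕ) : Finset ℕ := insert 2 (op z)

/-- their product -/
def P2 (z : ℕ) : ℕ := ∏ p ∈ ap z, p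

theorem two_notMem (z : ℕ) : 2 ∉ op z := by
  unfold op
  simp

theorem ap_prime {z p : ℕ} (h : p ∈ ap z) : p.Prime := by
  unfold ap op at h
  rw [mem_insert, mem_filter] at h
  rcases h with rfl | h
  · exact Nat.prime_two
  · exact h.2

theorem mem_ap {z p : ℕ} (hz : 2 ≤ z) : p ∈ ap z ↔ p.Prime ∧ p ≤ z := by
  unfold ap op
  rw [mem_insert, mem_filter, mem_Icc]
  constructor
  · rintro (rfl | h)
    · exact ⟨Nat.prime_two, hz⟩
    · exact ⟨h.2, h.1.2⟩
  · rintro ⟨h1, h2⟩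
    rcases h1.two_le.eq_or_lt with h | h
    · exact Or.inl h.symm
    · exact Or.inr ⟨⟨h, h2⟩, h1⟩

theorem P2_eq (z : ℕ) : P2 z = 2 * PZ z := by
  unfold P2 ap PZ
  rw [prod_insert (two_notMem z)]

theorem P2_ne (z : ℕ) : P2 z ≠ 0 := by
  unfold P2
  exact prod_ne_zero_iff.2 fun p hp => (ap_prime hp).ne_zero

theorem P2_pf (z : ℕ) : (P2 z).primeFactors = ap z := Nat.primeFactors_prod fun _ h => ap_prime h

theorem P2_sf (z : ℕ) : Squarefree (P2 z) := by
  unfold P2
  refine Finset.squarefree_prod_of_pairwise_isCoprime (fun p hp q hq hpq => ?_)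
    fun p hp => (ap_prime hp).squarefree
  exact Nat.coprime_iff_isRelPrime.1 ((Nat.coprime_primes (ap_prime hp) (ap_prime hq)).2 hpq)

/-- `μ(k) / φ(k)` -/
noncomputable def g (k : ℕ) : ℝ := ((ArithmeticFunction.moebius k : ℤ) : ℝ) / (k.totient : ℝ)

theorem g_one : g 1 = 1 := by
  unfold g
  simp

theorem g_mul {m n : ℕ} (h : m.Coprime n) : g (m * n) = g m * g n := by
  unfold g
  rw [ArithmeticFunction.isMultiplicative_moebius.map_mul_of_coprime h, Nat.totient_mul h]
  push_cast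
  rw [mul_div_mul_comm]

theorem g_not_sf {k : ℕ} (h : ¬ Squarefree k) : g k = 0 := by
  unfold g
  rw [ArithmeticFunction.moebius_eq_zero_of_not_squarefree h]
  simp

theorem g_abs {k : ℕ} : |g k| ≤ 1 / (k.totient : ℝ) := by
  unfold g
  rw [abs_div, abs_of_nonneg (by positivity : (0 : ℝ) ≤ (k.totient : ℝ))]
  gcongr
  have := ArithmeticFunction.abs_moebius_le_one (n := k)
  exact_mod_cast this

theorem g_abs_sf {k : ℕ} (h : Squarefree k) : |g k| = 1 / (k.totient : ℝ) := by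
  unfold g
  rw [abs_div, abs_of_nonneg (by positivity : (0 : ℝ) ≤ (k.totient : ℝ))]
  congr 1
  have := (ArithmeticFunction.abs_moebius_eq_one_of_squarefree h)
  exact_mod_cast this

/-- the twisted function -/
noncomputable def f (A k : ℕ) : ℝ := g k * (chi A k : ℝ)

theorem f_mul (A : ℕ) {m n : ℕ} (h : m.Coprime n) : f A (m * n) = f A m * f A n := by
  unfold f
  rw [g_mul h, chi_mul]
  push_cast
  ring

/-- the squarefree `m` with `2 ≤ m ≤ Q / d` prime to all primes up to `z` -/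
def MS (z Q d : ℕ) : Finset ℕ := (Icc 2 (Q / d)).filter fun m => Squarefree m ∧ m.Coprime (P2 z)

/-- the decomposition of the sum -/
theorem decomp {F : ℕ → ℝ} (h1 : F 1 = 1) (h0 : ∀ k, ¬ Squarefree k → F k = 0)
    (hm : ∀ m n : ℕ, m.Coprime n → F (m * n) = F m * F n) (z Q : ℕ) :
    ∑ k ∈ Icc 1 Q, F k = ∑ d ∈ (P2 z).divisors,
      F d * (if d ≤ Q then 1 + ∑ m ∈ MS z Q d, F m else 0) := by
  classical
  have e1 : ∑ k ∈ Icc 1 Q, F k = ∑ k ∈ (Icc 1 Q).filter Squarefree, F k := by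
    rw [sum_filter]
    refine sum_congr rfl fun k _ => ?_
    split_ifs with h
    · rfl
    · exact h0 k h
  have e2 : ∀ k ∈ (Icc 1 Q).filter Squarefree, k.gcd (P2 z) ∈ (P2 z).divisors := fun k _ =>
    Nat.mem_divisors.2 ⟨Nat.gcd_dvd_right _ _, P2_ne z⟩
  rw [e1, ← sum_fiberwise_of_maps_to e2]
  refine sum_congr rfl fun d hd => ?_
  have hdP : d ∣ P2 z := (Nat.mem_divisors.1 hd).1
  have hd0 : 0 < d := Nat.pos_of_mem_divisors hd
  have hdsf : Squarefree d := (P2_sf z).squarefree_of_dvd hdP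
  have e3 : ∑ k ∈ ((Icc 1 Q).filter Squarefree).filter (fun k => k.gcd (P2 z) = d), F k =
      ∑ m ∈ (Icc 1 (Q / d)).filter (fun m => Squarefree m ∧ m.Coprime (P2 z)), F (d * m) := by
    symm
    refine sum_nbij (fun m => d * m) ?_ ?_ ?_ fun _ _ => rfl
    · intro m hmm
      rw [mem_filter, mem_Icc] at hmm
      obtain ⟨⟨m1, m2⟩, m3, m4⟩ := hmm
      have hcop : d.Coprime m := (m4.symm).coprime_dvd_left hdP
      rw [mem_filter, mem_filter, mem_Icc]
      refine ⟨⟨⟨Nat.mul_pos hd0 m1, ?_⟩, (Nat.squarefree_mul hcop).2 ⟨hdsf, m3⟩⟩, ?_⟩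
      · rw [mul_comm]
        exact (Nat.le_div_iff_mul_le hd0).1 m2
      · rw [Nat.Coprime.gcd_mul_right_cancel _ m4]
        exact Nat.gcd_eq_left hdP
    · intro a _ b _ hab
      exact Nat.eq_of_mul_eq_mul_left hd0 hab
    · intro k hk
      rw [mem_coe, mem_filter, mem_filter, mem_Icc] at hk
      obtain ⟨⟨⟨k1, k2⟩, k3⟩, k4⟩ := hk
      have hdk : d ∣ k := by rw [← k4]; exact Nat.gcd_dvd_left _ _
      obtain ⟨m, rfl⟩ := hdk
      have hm0 : 0 < m := Nat.pos_of_ne_zero fun h0 => by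
        rw [h0, mul_zero] at k1
        omega
      have hcop : d.Coprime m := Nat.coprime_of_squarefree_mul k3
      refine ⟨m, ?_, rfl⟩
      rw [mem_coe, mem_filter, mem_Icc]
      refine ⟨⟨hm0, ?_⟩, (k3.squarefree_of_dvd (Dvd.intro_left d rfl)), ?_⟩
      · rw [Nat.le_div_iff_mul_le hd0, mul_comm]
        exact k2
      · refine Nat.coprime_of_dvd' ?_
        intro p hp hpm hpP
        have h5 : p ∣ d := by
          rw [← k4]
          exact Nat.dvd_gcd (hpm.mul_left d) hpP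
        have h6 := Nat.dvd_gcd h5 hpm
        rw [hcop] at h6
        exact h6
  rw [e3]
  have e4 : ∀ m ∈ (Icc 1 (Q / d)).filter (fun m => Squarefree m ∧ m.Coprime (P2 z)),
      F (d * m) = F d * F m := by
    intro m hmm
    rw [mem_filter] at hmm
    exact hm _ _ ((hmm.2.2.symm).coprime_dvd_left hdP)
  rw [sum_congr rfl e4, ← mul_sum]
  congr 1
  split_ifs with hdQ
  · have h1Q : 1 ≤ Q / d := (Nat.one_le_div_iff hd0).2 hdQ
    have e5 : (Icc 1 (Q / d)).filter (fun m => Squarefree m ∧ m.Coprime (P2 z)) =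
        insert 1 (MS z Q d) := by
      unfold MS
      ext m
      rw [mem_insert, mem_filter, mem_filter, mem_Icc, mem_Icc]
      constructor
      · rintro ⟨⟨m1, m2⟩, m3⟩
        rcases m1.eq_or_lt with h | h
        · exact Or.inl h.symm
        · exact Or.inr ⟨⟨h, m2⟩, m3⟩
      · rintro (rfl | ⟨⟨m1, m2⟩, m3⟩)
        · exact ⟨⟨le_refl 1, h1Q⟩, squarefree_one, Nat.coprime_one_left _⟩
        · exact ⟨⟨by omega, m2⟩, m3⟩
    rw [e5, sum_insert, h1]
    unfold MS
    simp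
  · have h0Q : Q / d = 0 := Nat.div_eq_of_lt (by omega)
    rw [h0Q]
    simp

end Pool.Agent.P8H78.EX
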