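import Pool.Agent.P8H78.EX.Alg1

/-!
# Package ALG of project EX, second part: bounds
-/

set_option autoImplicit false

namespace Pool.Agent.P8H78.EX

open Finset Filter Topology
open Pool.Agent.P8H14.CF Pool.Agent.P8H14.EX
open Pool.Agent.P8H96.CF (chi_mul chi_one chi_two chi_abs chi_tri chi_jac sing_eq)

/-- sums of multiplicative functions over the divisors -/
theorem sum_div {h : ℕ → ℝ} (h0 : h 0 = 0) (h1 : h 1 = 1)
    (hm : ∀ m n : ℕ, m.Coprime n → h (m * n) = h m * h n) (z : ℕ) :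
    ∑ d ∈ (P2 z).divisors, h d = ∏ p ∈ ap z, (1 + h p) := by
  let H : ArithmeticFunction ℝ := ⟨h, h0⟩
  have hH : H.IsMultiplicative := ⟨h1, fun {m n} hmn => hm m n hmn⟩
  have := hH.prodPrimeFactors_one_add_of_squarefree (P2_sf z)
  rw [P2_pf] at this
  exact this.symm

theorem g_zero : g 0 = 0 := by
  unfold g
  simp

theorem g_prime {p : ℕ} (hp : p.Prime) : g p = -1 / ((p : ℝ) - 1) := by
  unfold g
  rw [ArithmeticFunction.moebius_apply_prime hp, Nat.totient_prime hp,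
    Nat.cast_sub hp.one_le]
  push_cast
  rfl

theorem p_sub_pos {p : ℕ} (hp : p.Prime) : (0 : ℝ) < (p : ℝ) - 1 := by
  have : (2 : ℝ) ≤ p := by exact_mod_cast hp.two_le
  linarith

theorem g_prime_abs {p : ℕ} (hp : p.Prime) : |g p| = 1 / ((p : ℝ) - 1) := by
  rw [g_prime hp, abs_div, abs_neg, abs_one, abs_of_pos (p_sub_pos hp)]

/-- the full sum over the divisors -/
theorem sum_f {σ : ℤ} {z u N A : ℕ} (hA : A ∈ AS σ z u N) :
    ∑ d ∈ (P2 z).divisors, f A d = VS σ z := by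
  unfold AS at hA
  rw [mem_filter, mem_Ioc] at hA
  obtain ⟨⟨hA1, -⟩, hodd, hσ⟩ := hA
  rw [sum_div (by unfold f; rw [g_zero, zero_mul]) (by unfold f; rw [g_one, chi_one]; simp)
    (fun m n h => f_mul A h)]
  unfold ap VS
  rw [prod_insert (two_notMem z)]
  congr 1
  · unfold f
    rw [g_prime Nat.prime_two, chi_two hodd]
    norm_num
  · refine prod_congr rfl fun p hp => ?_
    have hpp : p.Prime := (mem_filter.1 hp).2
    unfold f
    rw [g_prime hpp, hσ p hp]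
    have := (p_sub_pos hpp).ne'
    field_simp
    ring

/-- the sum of the absolute values -/
theorem sum_g (z : ℕ) : ∑ d ∈ (P2 z).divisors, |g d| = VS (-1) z := by
  rw [sum_div (h := fun d => |g d|) (by rw [g_zero, abs_zero]) (by rw [g_one, abs_one])
    (fun m n h => by rw [g_mul h, abs_mul])]
  unfold ap VS
  rw [prod_insert (two_notMem z)]
  congr 1
  · rw [g_prime_abs Nat.prime_two]
    norm_num
  · refine prod_congr rfl fun p hp => ?_
    have hpp : p.Prime := (mem_filter.1 hp).2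
    rw [g_prime_abs hpp]
    push_cast
    ring

theorem prod_le_exp {s : Finset ℕ} {h : ℕ → ℝ} (h0 : ∀ p ∈ s, 0 ≤ h p) :
    ∏ p ∈ s, (1 + h p) ≤ Real.exp (∑ p ∈ s, h p) := by
  rw [Real.exp_sum]
  refine prod_le_prod (fun p hp => by have := h0 p hp; linarith) fun p hp => ?_
  have := Real.add_one_le_exp (h p)
  linarith

theorem sum_inv_sqrt (z : ℕ) : ∑ n ∈ Icc 1 z, 2 / √(n : ℝ) ≤ 4 * √(z : ℝ) := by
  induction z with
  | zero => simp
  | succ z ih =>
    rw [Finset.sum_Icc_succ_top (by omega)]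
    have h1 : 0 < √((z + 1 : ℕ) : ℝ) := Real.sqrt_pos.2 (by positivity)
    have h2 : 0 ≤ √(z : ℝ) := Real.sqrt_nonneg _
    have h3 : √((z + 1 : ℕ) : ℝ) ^ 2 = z + 1 := by
      rw [Real.sq_sqrt (by positivity)]
      push_cast
      ring
    have h4 : √(z : ℝ) ^ 2 = z := Real.sq_sqrt (by positivity)
    have h5 : 2 / √((z + 1 : ℕ) : ℝ) ≤ 4 * √((z + 1 : ℕ) : ℝ) - 4 * √(z : ℝ) := by
      rw [div_le_iff₀ h1]
      have h6 : √(z : ℝ) ≤ √((z + 1 : ℕ) : ℝ) := Real.sqrt_le_sqrt (by push_cast; linarith)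
      nlinarith
    linarith

/-- the tail of the sum over the divisors -/
theorem tail_g {z Q : ℕ} (hz : 2 ≤ z) (hQ : 1 ≤ Q) :
    ∑ d ∈ (P2 z).divisors.filter (fun d => ¬ d ≤ Q), |g d| ≤
      Real.exp (4 * √(z : ℝ)) / √(Q : ℝ) := by
  have hQ0 : 0 < √(Q : ℝ) := Real.sqrt_pos.2 (by exact_mod_cast hQ)
  rw [le_div_iff₀ hQ0, sum_mul]
  calc ∑ d ∈ (P2 z).divisors.filter (fun d => ¬ d ≤ Q), |g d| * √(Q : ℝ)
      ≤ ∑ d ∈ (P2 z).divisors.filter (fun d => ¬ d ≤ Q), √(d : ℝ) * |g d| := by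
        refine sum_le_sum fun d hd => ?_
        rw [mem_filter, not_le] at hd
        rw [mul_comm]
        gcongr
        exact_mod_cast hd.2.le
    _ ≤ ∑ d ∈ (P2 z).divisors, √(d : ℝ) * |g d| :=
        sum_le_sum_of_subset_of_nonneg (filter_subset _ _) fun _ _ _ => by positivity
    _ = ∏ p ∈ ap z, (1 + √(p : ℝ) * |g p|) := by
        rw [sum_div (h := fun d => √(d : ℝ) * |g d|) (by rw [g_zero, abs_zero, mul_zero])
          (by rw [g_one, abs_one, Nat.cast_one, Real.sqrt_one, one_mul]) (fun m n h => by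
            rw [g_mul h, abs_mul, Nat.cast_mul, Real.sqrt_mul (Nat.cast_nonneg m)]
            ring)]
    _ ≤ Real.exp (∑ p ∈ ap z, √(p : ℝ) * |g p|) := prod_le_exp fun _ _ => by positivity
    _ ≤ Real.exp (4 * √(z : ℝ)) := by
        apply Real.exp_le_exp.2
        refine le_trans ?_ (sum_inv_sqrt z)
        have hsub : ap z ⊆ Icc 1 z := by
          intro p hp
          rw [mem_ap hz] at hp
          exact mem_Icc.2 ⟨hp.1.one_le, hp.2⟩
        refine le_trans (sum_le_sum fun p hp => ?_)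
          (sum_le_sum_of_subset_of_nonneg hsub fun _ _ _ => by positivity)
        have hpp := ap_prime hp
        have h2 : (2 : ℝ) ≤ p := by exact_mod_cast hpp.two_le
        have h3 : 0 < √(p : ℝ) := Real.sqrt_pos.2 (by linarith)
        rw [g_prime_abs hpp, mul_one_div, div_le_div_iff₀ (p_sub_pos hpp) h3]
        have h4 : √(p : ℝ) * √(p : ℝ) = p := Real.mul_self_sqrt (by linarith)
        rw [h4]
        linarith

/-- the constant of the bound by the method of Rankin -/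
noncomputable def KR : ℝ := Real.exp (4 * ∑' n : ℕ, ((n : ℝ) ^ (5 / 4 : ℝ))⁻¹)

theorem KR_pos : 0 < KR := Real.exp_pos _

theorem sum_sq {z Q : ℕ} (hz : 1 ≤ z) (hQ : 2 ≤ Q) {S : Finset ℕ}
    (hS : ∀ m ∈ S, Squarefree m ∧ z < m ∧ m ≤ Q) :
    ∑ m ∈ S, g m ^ 2 ≤ KR * ((z : ℝ) ^ (3 / 4 : ℝ))⁻¹ := by
  have hz0 : (0 : ℝ) < (z : ℝ) ^ (3 / 4 : ℝ) := Real.rpow_pos_of_pos (by exact_mod_cast hz) _
  rw [← div_eq_mul_inv, le_div_iff₀ hz0, sum_mul]
  calc ∑ m ∈ S, g m ^ 2 * (z : ℝ) ^ (3 / 4 : ℝ)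
      ≤ ∑ m ∈ S, (m : ℝ) ^ (3 / 4 : ℝ) * g m ^ 2 := by
        refine sum_le_sum fun m hm => ?_
        rw [mul_comm]
        have : (z : ℝ) ≤ m := by exact_mod_cast (hS m hm).2.1.le
        gcongr
    _ ≤ ∑ m ∈ (P2 Q).divisors, (m : ℝ) ^ (3 / 4 : ℝ) * g m ^ 2 := by
        refine sum_le_sum_of_subset_of_nonneg (fun m hm => ?_) fun _ _ _ => by positivity
        obtain ⟨h1, -, h3⟩ := hS m hm
        rw [Nat.mem_divisors]
        refine ⟨?_, P2_ne Q⟩
        rw [← Nat.prod_primeFactors_of_squarefree h1]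
        unfold P2
        refine prod_dvd_prod_of_subset _ _ _ fun p hp => ?_
        rw [mem_ap hQ]
        exact ⟨Nat.prime_of_mem_primeFactors hp,
          (Nat.le_of_mem_primeFactors hp).trans h3⟩
    _ = ∏ p ∈ ap Q, (1 + (p : ℝ) ^ (3 / 4 : ℝ) * g p ^ 2) := by
        rw [sum_div (h := fun d => (d : ℝ) ^ (3 / 4 : ℝ) * g d ^ 2)
          (by rw [g_zero]; ring)
          (by rw [g_one, Nat.cast_one, Real.one_rpow]; norm_num) (fun m n h => by
            rw [g_mul h, Nat.cast_mul, Real.mul_rpow (Nat.cast_nonneg m) (Nat.cast_nonneg n)]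
            ring)]
    _ ≤ Real.exp (∑ p ∈ ap Q, (p : ℝ) ^ (3 / 4 : ℝ) * g p ^ 2) :=
        prod_le_exp fun _ _ => by positivity
    _ ≤ KR := by
        unfold KR
        apply Real.exp_le_exp.2
        have hsum : Summable fun n : ℕ => ((n : ℝ) ^ (5 / 4 : ℝ))⁻¹ :=
          Real.summable_nat_rpow_inv.2 (by norm_num)
        calc ∑ p ∈ ap Q, (p : ℝ) ^ (3 / 4 : ℝ) * g p ^ 2
            ≤ ∑ p ∈ ap Q, 4 * ((p : ℝ) ^ (5 / 4 : ℝ))⁻¹ := by
              refine sum_le_sum fun p hp => ?_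
              have hpp := ap_prime hp
              have h2 : (2 : ℝ) ≤ p := by exact_mod_cast hpp.two_le
              have hp0 : (0 : ℝ) < p := by linarith
              have h3 : g p ^ 2 ≤ 4 / (p : ℝ) ^ 2 := by
                rw [← sq_abs, g_prime_abs hpp, div_pow, one_pow,
                  div_le_div_iff₀ (pow_pos (p_sub_pos hpp) 2) (by positivity)]
                nlinarith
              have h4 : (p : ℝ) ^ (3 / 4 : ℝ) / (p : ℝ) ^ 2 = ((p : ℝ) ^ (5 / 4 : ℝ))⁻¹ := by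
                rw [← Real.rpow_natCast (p : ℝ) 2, ← Real.rpow_sub hp0, ← Real.rpow_neg hp0.le]
                norm_num
              calc (p : ℝ) ^ (3 / 4 : ℝ) * g p ^ 2 ≤ (p : ℝ) ^ (3 / 4 : ℝ) * (4 / (p : ℝ) ^ 2) := by
                    gcongr
                _ = 4 * ((p : ℝ) ^ (3 / 4 : ℝ) / (p : ℝ) ^ 2) := by ring
                _ = _ := by rw [h4]
          _ = 4 * ∑ p ∈ ap Q, ((p : ℝ) ^ (5 / 4 : ℝ))⁻¹ := by rw [mul_sum]
          _ ≤ 4 * ∑' n : ℕ, ((n : ℝ) ^ (5 / 4 : ℝ))⁻¹ := by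
              gcongr
              exact hsum.sum_le_tsum _ fun _ _ => by positivity

theorem mem_MS {z Q d m : ℕ} (hz : 2 ≤ z) (h : m ∈ MS z Q d) : Squarefree m ∧ Odd m ∧
    m.Coprime (PZ z) ∧ z < m ∧ m ≤ Q := by
  unfold MS at h
  rw [mem_filter, mem_Icc] at h
  obtain ⟨⟨h1, h2⟩, h3, h4⟩ := h
  have h5 := h4
  rw [P2_eq] at h5
  refine ⟨h3, ?_, h5.coprime_mul_left_right, ?_, h2.trans (Nat.div_le_self _ _)⟩
  · have h6 : m.Coprime 2 := h5.coprime_mul_right_right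
    exact Nat.coprime_two_right.1 h6
  · by_contra hc
    push Not at hc
    have hp : m.minFac.Prime := Nat.minFac_prime (by omega)
    have hle : m.minFac ≤ z := (Nat.minFac_le (by omega)).trans hc
    have h7 : m.minFac ∣ P2 z := by
      unfold P2
      exact dvd_prod_of_mem _ ((mem_ap hz).2 ⟨hp, hle⟩)
    have h8 := Nat.dvd_gcd m.minFac_dvd h7
    rw [h4] at h8
    exact hp.one_lt.ne' (Nat.dvd_one.1 h8)

end Pool.Agent.P8H78.EX
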